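import Pool.Agent.Helper35.MS.StGB

set_option autoImplicit false

namespace Helper30.MS

open Helper35.MS Helper35.PI Helper35.PI2 Helper32.CL
open scoped ContDiff Manifold Topology ENNReal BigOperators
open MeasureTheory Set Filter

lemma gld_inner (hFR : Helper35.PI.StFR) {n N : ℕ} {f V : EE n → EE N} {y : EE n} (h : LI f y)
    (m : Fin n) : (inner ℝ (dv1 f y m) (zfd f V y) : ℝ) = zcv f V y m := by
  obtain ⟨-, hu, -⟩ := hFR n N f y h
  unfold zfd
  simp only [inner_sum, inner_smul_right]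
  have h1 : ∀ l, (inner ℝ (dv1 f y m) (dv1 f y l) : ℝ) = gram f y l m := fun l =>
    real_inner_comm _ _
  have h2 : ∀ k, ∑ l, (gram f y)⁻¹ k l * gram f y l m = if k = m then 1 else 0 := by
    intro k
    have := congrFun (congrFun (Matrix.nonsing_inv_mul (gram f y) hu) k) m
    rw [Matrix.mul_apply, Matrix.one_apply] at this
    exact this
  have h3 : ∀ k, ∑ l, (gram f y)⁻¹ k l * zcv f V y k * (inner ℝ (dv1 f y m) (dv1 f y l) : ℝ) =
      zcv f V y k * (if k = m then 1 else 0) := by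
    intro k
    rw [← h2 k, Finset.mul_sum]
    refine Finset.sum_congr rfl fun l _ => ?_
    rw [h1]
    ring
  rw [Finset.sum_congr rfl fun k _ => h3 k]
  simp

theorem hGLD (hGSM : StGSM) (hV2 : Helper35.PI.StV2) (hFR : Helper35.PI.StFR)
    (_hNR : Helper35.PI.StNR) (hV1 : Helper35.PI.StV1) (hSM : Helper35.PI.StSM) : StGLD := by
  intro n N f V x hf hV hLI
  obtain ⟨-, hZ, -, -, hH⟩ := hGSM n N f V x hf hV hLI
  have hF : ContDiffAt ℝ ∞ (fun z : EE n × ℝ => f z.1) (x, (0 : ℝ)) :=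
    ContDiffAt.comp (x, (0 : ℝ)) hf contDiffAt_fst
  have hpair : ContDiff ℝ ∞ (fun y : EE n => (y, (0 : ℝ))) := contDiff_id.prodMk contDiff_const
  obtain ⟨hev, hjg, -, -, -, hG, -⟩ := hSM n N (fun z => f z.1) (x, 0) hF hLI
  obtain ⟨-, hs, -⟩ := hV1 n N (fun z => f z.1) (x, 0) hF hLI
  have hev' : ∀ᶠ y in 𝓝 x, LI f y ∧ ContDiffAt ℝ 5 f y := by
    have h1 : Tendsto (fun y : EE n => (y, (0 : ℝ))) (𝓝 x) (𝓝 (x, (0 : ℝ))) :=
      hpair.continuous.continuousAt
    filter_upwards [h1.eventually hev] with y hy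
    refine ⟨hy.1, ?_⟩
    have h2 : ContDiffAt ℝ 5 (fun z : EE n × ℝ => f z.1) (y, (0 : ℝ)) := hy.2.1
    have h3 : ContDiffAt ℝ 5 (fun y : EE n => (y, (0 : ℝ))) y :=
      (contDiff_id.prodMk contDiff_const).contDiffAt
    exact ContDiffAt.comp (g := fun z : EE n × ℝ => f z.1) (f := fun y : EE n => (y, (0 : ℝ)))
      y h2 h3
  obtain ⟨U, hU1, hU, hxU⟩ := mem_nhds_iff.1 hev'
  have hV2x := hV2 n N f U hU
    (fun y hy => ((hU1 hy).2.of_le (by norm_num)).contDiffWithinAt) (fun y hy => (hU1 hy).1) x hxU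
  -- smoothness at `x`
  have hs' : ContDiffAt ℝ ∞ (fun z : EE n × ℝ => sgm f z.1) (x, (0 : ℝ)) := hs
  have hG' : ∀ i j, ContDiffAt ℝ ∞ (fun z : EE n × ℝ => (gram f z.1)⁻¹ i j) (x, (0 : ℝ)) := hG
  have hsx : ContDiffAt ℝ ∞ (fun y => sgm f y) x := 
    ContDiffAt.comp (g := fun z : EE n × ℝ => sgm f z.1) (f := fun y : EE n => (y, (0 : ℝ)))
      x hs' hpair.contDiffAt
  have hGx : ∀ i j, ContDiffAt ℝ ∞ (fun y => (gram f y)⁻¹ i j) x := fun i j =>

    ContDiffAt.comp (g := fun z : EE n × ℝ => (gram f z.1)⁻¹ i j)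
      (f := fun y : EE n => (y, (0 : ℝ))) x (hG' i j) hpair.contDiffAt
  have hdx : ∀ i, ContDiffAt ℝ ∞ (fun y => dv1 f y i) x := fun i => by
    have h1 : ContDiffAt ℝ ∞ (fderiv ℝ f) x := hf.fderiv_right (by simp)
    exact h1.clm_apply contDiffAt_const
  have hW : ∀ i j, DifferentiableAt ℝ (fun y => (sgm f y * (gram f y)⁻¹ i j) • dv1 f y j) x :=
    fun i j => ((hsx.mul (hGx i j)).smul (hdx j)).differentiableAt (by simp)
  have hZd : DifferentiableAt ℝ (zfd f V) x := hZ.differentiableAt (by simp)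
  have key : ∀ i, fderiv ℝ (fun y => sgm f y * (∑ l, (gram f y)⁻¹ i l * zcv f V y l)) x (ee i) =
      ∑ j, ((inner ℝ ((sgm f x * (gram f x)⁻¹ i j) • dv1 f x j)
        (fderiv ℝ (zfd f V) x (ee i)) : ℝ) +
        inner ℝ (fderiv ℝ (fun y => (sgm f y * (gram f y)⁻¹ i j) • dv1 f y j) x (ee i))
          (zfd f V x)) := by
    intro i
    have h1 : (fun y => sgm f y * (∑ l, (gram f y)⁻¹ i l * zcv f V y l)) =ᶠ[𝓝 x]
        fun y => ∑ j, (inner ℝ ((sgm f y * (gram f y)⁻¹ i j) • dv1 f y j) (zfd f V y) : ℝ) := by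
      filter_upwards [hev'] with y hy
      rw [Finset.mul_sum]
      refine Finset.sum_congr rfl fun l _ => ?_
      rw [inner_smul_left, gld_inner hFR hy.1]
      simp only [conj_trivial]
      ring
    rw [h1.fderiv_eq, fderiv_fun_sum fun j _ => (hW i j).inner ℝ hZd]
    rw [sum_apply]
    refine Finset.sum_congr rfl fun j _ => ?_
    rw [fderiv_inner_apply ℝ (hW i j) hZd]
  rw [Finset.sum_congr rfl fun i _ => key i]
  simp only [Finset.sum_add_distrib]
  have h2 : ∑ i, ∑ j, (inner ℝ (fderiv ℝ (fun y => (sgm f y * (gram f y)⁻¹ i j) • dv1 f y j) x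
      (ee i)) (zfd f V x) : ℝ) = 0 := by
    simp only [← sum_inner]
    rw [hV2x, inner_smul_left, hH, mul_zero]
  rw [h2, add_zero]
  unfold dvc
  rw [Finset.mul_sum]
  refine Finset.sum_congr rfl fun i _ => ?_
  rw [Finset.mul_sum]
  refine Finset.sum_congr rfl fun j _ => ?_
  rw [inner_smul_left, real_inner_comm]
  simp only [conj_trivial]
  ring

end Helper30.MS
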