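import Pool.Agent.Helper35.MS.StH

set_option autoImplicit false

namespace Helper30.MS

open Helper35.MS Helper35.PI Helper35.PI2 Helper32.CL
open scoped ContDiff Manifold Topology ENNReal BigOperators
open MeasureTheory Set Filter

lemma sgT_mono : Monotone sgT := by
  intro a b h
  unfold sgT
  have : Real.exp (-4 * b) ≤ Real.exp (-4 * a) := Real.exp_le_exp.2 (by linarith)
  linarith

lemma sgT_cont : Continuous sgT := by
  unfold sgT
  fun_prop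

lemma IS_unique {TE : ℝ} (h : 0 < TE) : UniqueDiffOn ℝ (IS TE) := by
  refine uniqueDiffOn_convex ?_ ?_
  · refine OrdConnected.convex ?_
    exact ⟨fun x hx y hy z hz => ⟨hx.1.trans hz.1, (sgT_mono hz.2).trans_lt hy.2⟩⟩
  · have h1 : ∀ᶠ t in 𝓝[>] (0 : ℝ), sgT t < TE := by
      have h2 : Tendsto sgT (𝓝[>] 0) (𝓝 (sgT 0)) :=
        (sgT_cont.tendsto 0).mono_left nhdsWithin_le_nhds
      have h0 : sgT 0 = 0 := by simp [sgT]
      rw [h0] at h2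
      exact h2.eventually_lt_const h
    obtain ⟨t, ht1, ht2⟩ := (h1.and self_mem_nhdsWithin).exists
    refine ⟨t, mem_interior.2 ⟨Ioi 0 ∩ {t | sgT t < TE}, fun s hs => ⟨le_of_lt hs.1, hs.2⟩, ?_,
      ht2, ht1⟩⟩
    exact isOpen_Ioi.inter (isOpen_lt sgT_cont continuous_const)

lemma pre_alg (Y A Z r : ℝ) (hr : r ≠ 0) : r * (Y / r) / 4 - 1 = Y / 4 - 1 ∧
    r * (2 * (A / r) - Y / r) / 4 = (2 * A - Y) / 4 ∧
    r ^ 2 * (Z / r ^ 2 - (Y / r) ^ 2 / 2) / 8 = (Z - Y ^ 2 / 2) / 8 := by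
  refine ⟨?_, ?_, ?_⟩ <;> field_simp

theorem hPRE (hCNV : StCNV) (hCT0 : StCT0) (hMPT : StMPT) (hCE0 : StCE0) (hHSQ : StHSQ) :
    StPRE := by
  intro N M _ _ _ _ F TE hTE hTE4 hF ε hε hε' h0
  obtain ⟨hfl, hcv⟩ := hCNV N M F TE hTE hTE4 hF
  obtain ⟨hfr, hct⟩ := hCT0 N M (IS TE) F hF
  obtain ⟨-, cH, cA, cZ⟩ := hct (IS_unique hTE)
  have hge : ∀ t ∈ IS TE, ∀ q, 4 ≤ ‖HH (n := 2) F q t‖ ^ 2 := by
    intro t ht q
    obtain ⟨hi, hq⟩ := hfr t ht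
    have h1 := hHSQ N M univ (fun q _ => F q t) hi t (mem_univ _) (fun q => hF.sph q t ht) q
    have h2 := h1.2.2.1
    rw [(hq q t).1] at h2
    have h3 := sq_nonneg ‖HS (n := 2) (fun q (_ : ℝ) => F q t) q t‖
    linarith
  set P : M → ℝ → ℝ := fun q t => (2 * AA (n := 2) F q t - ‖HH (n := 2) F q t‖ ^ 2) / 4
    - fm0 (‖HH (n := 2) F q t‖ ^ 2 / 4 - 1)
    + gm0 (‖HH (n := 2) F q t‖ ^ 2 / 4 - 1) *
      Real.sqrt ((ZF (n := 2) F q t - (‖HH (n := 2) F q t‖ ^ 2) ^ 2 / 2) / 8 + ε ^ 2) with hP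
  have hPh : ∀ q, ∀ τ ∈ Ico 0 TE, PhF ε (FEs F) q τ = P q (tmS τ) := by
    intro q τ hτ
    obtain ⟨ht, -, h⟩ := hcv τ hτ
    obtain ⟨-, hH, hA, hZ⟩ := h q
    have hr : 0 < 1 - 4 * τ := by
      have := hτ.2
      linarith
    have hn : ‖HH (n := 2) (FEs F) q τ‖ ^ 2 = ‖HH (n := 2) F q (tmS τ)‖ ^ 2 / (1 - 4 * τ) := by
      rw [hH, norm_smul, mul_pow, Real.norm_eq_abs, sq_abs, div_pow, Real.sq_sqrt hr.le]
      ring
    simp only [PhF, xS, sS, vS, hP]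
    rw [hn, hA, hZ]
    obtain ⟨e1, e2, e3⟩ := pre_alg (‖HH (n := 2) F q (tmS τ)‖ ^ 2) (AA (n := 2) F q (tmS τ))
      (ZF (n := 2) F q (tmS τ)) (1 - 4 * τ) hr.ne'
    rw [e1, e2, e3]
  have hcont : CSTJ (Ico 0 TE) (PhF ε (FEs F)) := by
    have hm : ContinuousOn (fun z : M × ℝ => (z.1, tmS z.2)) (univ ×ˢ Ico 0 TE) := by
      refine continuousOn_fst.prodMk ?_
      unfold tmS
      refine ContinuousOn.neg (ContinuousOn.div_const (ContinuousOn.log ?_ ?_) _)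
      · fun_prop
      · intro z hz
        have h1 := hz.2.2
        have h2 : 0 < 1 - 4 * z.2 := by linarith
        exact h2.ne'
    have hmap : MapsTo (fun z : M × ℝ => (z.1, tmS z.2)) (univ ×ˢ Ico 0 TE)
        (univ ×ˢ IS TE) := fun z hz => ⟨mem_univ _, (hcv z.2 hz.2).1⟩
    have hcomp : ∀ {W : Type} [TopologicalSpace W] {g : M → ℝ → W}, CSTJ (IS TE) g →
        ContinuousOn (fun z : M × ℝ => g z.1 (tmS z.2)) (univ ×ˢ Ico 0 TE) := by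
      intro W _ g hg
      exact ContinuousOn.comp hg hm hmap
    have cY : ContinuousOn (fun z : M × ℝ => ‖HH (n := 2) F z.1 (tmS z.2)‖ ^ 2)
        (univ ×ˢ Ico 0 TE) := (hcomp cH).norm.pow 2
    have cA' := hcomp cA
    have cZ' := hcomp cZ
    have cx : ContinuousOn (fun z : M × ℝ => ‖HH (n := 2) F z.1 (tmS z.2)‖ ^ 2 / 4 - 1)
        (univ ×ˢ Ico 0 TE) := (cY.div_const 4).sub continuousOn_const
    have hx : ∀ z ∈ (univ : Set M) ×ˢ Ico 0 TE, 0 ≤ ‖HH (n := 2) F z.1 (tmS z.2)‖ ^ 2 / 4 - 1 := by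
      intro z hz
      have := hge _ (hcv z.2 hz.2).1 z.1
      linarith
    have cf : ContinuousOn (fun z : M × ℝ => fm0 (‖HH (n := 2) F z.1 (tmS z.2)‖ ^ 2 / 4 - 1))
        (univ ×ˢ Ico 0 TE) := by
      intro z hz
      obtain ⟨-, -, -, -, -, -, d0, -⟩ := hCE0.1 _ (hx z hz)
      exact ContinuousAt.comp_continuousWithinAt
        (f := fun z : M × ℝ => ‖HH (n := 2) F z.1 (tmS z.2)‖ ^ 2 / 4 - 1) d0.continuousAt (cx z hz)
    have cg : ContinuousOn (fun z : M × ℝ => gm0 (‖HH (n := 2) F z.1 (tmS z.2)‖ ^ 2 / 4 - 1))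
        (univ ×ˢ Ico 0 TE) := by
      intro z hz
      obtain ⟨-, -, -, -, -, -, -, -, d0, -⟩ := hCE0.1 _ (hx z hz)
      exact ContinuousAt.comp_continuousWithinAt
        (f := fun z : M × ℝ => ‖HH (n := 2) F z.1 (tmS z.2)‖ ^ 2 / 4 - 1) d0.continuousAt (cx z hz)
    have cP : ContinuousOn (fun z : M × ℝ => P z.1 (tmS z.2)) (univ ×ˢ Ico 0 TE) := by
      refine ((((cA'.const_smul (2 : ℝ)).sub cY).div_const 4).sub cf).add (cg.mul ?_)
      exact ((((cZ'.sub ((cY.pow 2).div_const 2)).div_const 8)).add continuousOn_const).sqrt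
    exact cP.congr fun z hz => hPh z.1 z.2 hz.2
  refine hMPT N M TE (FEs F) hTE hTE4 hfl (fun q t ht => ?_) ε hε hε' hcont fun q => ?_
  · exact ((hcv t ⟨ht.1.le, ht.2⟩).2.2 q).1
  · have h1 : tmS 0 = 0 := by simp [tmS]
    rw [hPh q 0 ⟨le_rfl, hTE⟩, h1]
    have h2 := h0 q
    simp only [PhF, xS, sS, vS] at h2
    simp only [hP]
    simpa using h2

end Helper30.MS
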